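import Mathlib
import Pool.Agent.Helper196_Ehr.Defs
import Pool.Agent.Helper196_Ehr.Interp
import Pool.Agent.Helper196_Ehr.Extract

set_option autoImplicit false

/-!
# `q,t`-Ehrhart differences between complete and threshold graphs: low degree coefficients

For every threshold graph the coefficient of `q^i t^j` in the difference is nonnegative whenever
`i ≤ 2` or `j ≤ 2`.
-/

namespace Pool.Agent.Results.MP_68f7ae_co.LowDegree

open MvPolynomial Pool.Agent.Helper196Ehr

theorem coeff_hh_nonneg (l : List ℕ) (m : Fin 2 →₀ ℕ) :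
    0 ≤ coeff m (hh (X 0 : MvPolynomial (Fin 2) ℤ) (X 1) l) := by
  have h : hh (X 0 : MvPolynomial (Fin 2) ℤ) (X 1) l
      = map (Nat.castRingHom ℤ) (hh (X 0) (X 1) l) := by
    rw [map_hh, map_X, map_X]
  rw [h, coeff_map]
  exact Int.natCast_nonneg _

theorem low (n : ℕ) (G : SimpleGraph (Fin (n+1))) (hT : IsThreshold G) (hS : DegSorted G)
    (m : Fin 2 →₀ ℕ) (hm : m 1 ≤ 2) :
    0 ≤ coeff m (Ehr (⊤ : SimpleGraph (Fin (n+1))) - Ehr G) := by
  rcases Nat.eq_zero_or_pos n with hn | hn
  · subst hn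
    have : G = ⊤ := by
      ext a b
      rw [SimpleGraph.top_adj]
      have hab : a = b := Fin.ext (by omega)
      subst hab
      simp
    rw [this, sub_self, coeff_zero]
  · by_cases h0 : NA G n 0
    · obtain ⟨w, hw, hN⟩ := exists_word' hT hS h0
      exact low_degree G w hw hN m (by omega)
    · rw [Ehr_disc G hn (Nbr_empty hT hS h0), sub_zero, Ehr_complete]
      exact coeff_hh_nonneg _ m

/-- For every threshold graph (labelled by weakly decreasing degrees) the coefficient of
`q^i t^j` in the difference of the `q,t`-Ehrhart polynomials of the complete graph and of the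
threshold graph is nonnegative if `i ≤ 2` or `j ≤ 2`. -/
theorem result (n : ℕ) (G : SimpleGraph (Fin (n+1))) (hT : IsThreshold G) (hS : DegSorted G)
    (m : Fin 2 →₀ ℕ) (hm : m 0 ≤ 2 ∨ m 1 ≤ 2) :
    0 ≤ coeff m (Ehr (⊤ : SimpleGraph (Fin (n+1))) - Ehr G) := by
  rcases hm with hm | hm
  · have h1 : rename (Equiv.swap (0 : Fin 2) 1) (Ehr (⊤ : SimpleGraph (Fin (n+1))) - Ehr G)
        = Ehr (⊤ : SimpleGraph (Fin (n+1))) - Ehr G := by
      rw [map_sub, Ehr_symm, Ehr_symm]
    have h2 := coeff_rename_mapDomain (Equiv.swap (0 : Fin 2) 1) (Equiv.injective _)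
      (Ehr (⊤ : SimpleGraph (Fin (n+1))) - Ehr G) m
    rw [h1] at h2
    rw [← h2]
    apply low n G hT hS
    have h3 : (Finsupp.mapDomain (Equiv.swap (0 : Fin 2) 1) m) 1 = m 0 := by
      have := Finsupp.mapDomain_apply (Equiv.injective (Equiv.swap (0 : Fin 2) 1)) m 0
      rw [Equiv.swap_apply_left] at this
      exact this
    rw [h3]; exact hm
  · exact low n G hT hS m hm

end Pool.Agent.Results.MP_68f7ae_co.LowDegree
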