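import Mathlib
import Pool.Agent.Helper196_Ehr.Defs
import Pool.Agent.Helper196_Ehr.Interp

set_option autoImplicit false

/-!
# `q,t`-Ehrhart differences between complete and threshold graphs

The difference has nonnegative coefficients for every disconnected threshold graph and for every
threshold graph whose vertices of degree at least two, one of them excepted, form a clique.
-/

namespace Pool.Agent.Results.MP_68f7ae_co.OneVertex

open MvPolynomial Pool.Agent.Helper196Ehr

theorem coeff_cast (P : MvPolynomial (Fin 2) ℕ) (m : Fin 2 →₀ ℕ) :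
    0 ≤ coeff m (map (Nat.castRingHom ℤ) P) := by
  rw [coeff_map]
  exact Int.natCast_nonneg _

theorem hh_cast (l : List ℕ) : hh (X 0 : MvPolynomial (Fin 2) ℤ) (X 1) l
    = map (Nat.castRingHom ℤ) (hh (X 0) (X 1) l) := by
  rw [map_hh, map_X, map_X]

theorem coeff_hh_nonneg (l : List ℕ) (m : Fin 2 →₀ ℕ) :
    0 ≤ coeff m (hh (X 0 : MvPolynomial (Fin 2) ℤ) (X 1) l) := by
  rw [hh_cast]; exact coeff_cast _ m

theorem coeff_hh_le (a b n : ℕ) (h : a + b ≤ n) (m : Fin 2 →₀ ℕ) :
    coeff m (hh (X 0 : MvPolynomial (Fin 2) ℤ) (X 1) (List.replicate a 1 ++ List.replicate b 0))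
      ≤ coeff m (hh (X 0 : MvPolynomial (Fin 2) ℤ) (X 1) (List.replicate n 1)) := by
  obtain ⟨c, hc⟩ := hh_one_vertex_le (X 0 : MvPolynomial (Fin 2) ℕ) (X 1) a b n h
  rw [hh_cast, hh_cast, hc, map_add, coeff_add]
  have := coeff_cast c m
  omega

/-- The difference of the `q,t`-Ehrhart polynomials of the complete graph and of a threshold graph
(labelled by weakly decreasing degrees) has nonnegative coefficients if the threshold graph is
disconnected, or if for some vertex `v` the vertices of degree at least two other than `v` are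
pairwise adjacent. -/
theorem result (n : ℕ) (G : SimpleGraph (Fin (n+1))) (hT : IsThreshold G) (hS : DegSorted G)
    (hG : ¬ G.Connected ∨ ∃ v, ∀ i j, i ≠ j → i ≠ v → j ≠ v →
      2 ≤ vdeg G i → 2 ≤ vdeg G j → G.Adj i j) (m : Fin 2 →₀ ℕ) :
    0 ≤ coeff m (Ehr (⊤ : SimpleGraph (Fin (n+1))) - Ehr G) := by
  rcases Nat.eq_zero_or_pos n with hn | hn
  · subst hn
    have : G = ⊤ := by
      ext a b
      rw [SimpleGraph.top_adj]
      have hab : a = b := Fin.ext (by omega)
      subst hab
      simp
    rw [this, sub_self, coeff_zero]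
  · by_cases h0 : NA G n 0
    · have hv : ∃ v, ∀ i j, i ≠ j → i ≠ v → j ≠ v → 2 ≤ vdeg G i → 2 ≤ vdeg G j → G.Adj i j := by
        rcases hG with h | h
        · exact absurd (NA_of_connected hT hS h0) h
        · exact h
      obtain ⟨k, p, hp, hk, h1, h2, h3⟩ := structure_one hT hS hn h0 hv
      rw [Ehr_complete, Ehr_vertex G k p hp hk h1 h2 h3, coeff_sub, sub_nonneg]
      exact coeff_hh_le (p+1) (k-p) n (by omega) m
    · rw [Ehr_disc G hn (Nbr_empty hT hS h0), sub_zero, Ehr_complete]
      exact coeff_hh_nonneg _ m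

end Pool.Agent.Results.MP_68f7ae_co.OneVertex
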